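import Pool.Agent.W93.LV5
import Pool.Agent.TH935.LF2

set_option autoImplicit false

/-! Families of nearly minimal additive energy: exceptional sets for the difference between the von
Mangoldt function and its model, with the supremum over the length of the sum. -/

namespace Pool.Agent.TH646.LV

open Finset
open Pool.Agent.H373R2.T7
open Pool.Agent.H807R2.Dav
open Pool.Agent.W93.AU (dI)
open Pool.Agent.TH935.LF (lam_f fa fa_sup)

set_option maxHeartbeats 4000000 in
/-- from the first moment to the number of exceptional members, with the supremum over the length -/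
theorem fam_sup (p B C T U : ℕ) :
    ∃ U' N0 : ℕ, ∀ N : ℕ, N0 ≤ N → ∀ (x : ℕ) (s : ℕ → ℤ),
    (∀ m ∈ Icc 1 x, |s m| ≤ B * N) →
    (energy p x s : ℝ) * N ≤ Real.log N ^ C * (x : ℝ) ^ (2 * p) →
    ∀ f : ℕ → ℂ,
    (∀ α : ℝ, ‖∑ n ∈ Icc 1 (2 * ((B + 1) * N)), f n * ee ((n : ℝ) * α)‖ ≤ ((2 * ((B + 1) * N) : ℕ) : ℝ) / Real.log N ^ U') →
    (∀ n ∈ Icc 1 (2 * ((B + 1) * N)), ‖f n‖ ≤ 2 * Real.log N) →
    ∀ G : ℕ → ℂ, (∀ a, ‖G a‖ ≤ Real.log N ^ T) →
    ∀ S : Finset ℕ, S ⊆ Icc 1 x →
    (∀ m ∈ S, ∃ A : ℕ, A ≤ B * N ∧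
      N / Real.log N ^ U < ‖∑ a ∈ Icc 1 A, G a * fz f (2 * ((B + 1) * N)) (a + s m)‖) →
    (S.card : ℝ) ≤ x / Real.log N ^ U := by
  obtain ⟨W, hW⟩ : ∃ W, W = T + U + 3 := ⟨_, rfl⟩
  obtain ⟨U', n1, h1⟩ := lam_f p B C (W + T + 2 * U + 3)
  obtain ⟨n2, h2⟩ := ev_L' (8 * B + 8)
  obtain ⟨n3, h3⟩ := ev_log' (T + U + 1) 8
  refine ⟨U', n1 + n2 + n3 + 3, fun N hN x s hs hE f hf1 hf2 G hG S hSx hS => ?_⟩
  classical
  have hL := h2 N (by omega)
  have hN3 : 3 ≤ N := by omega
  have hN0 : (0 : ℝ) < N := by exact_mod_cast (by omega : 0 < N)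
  have hNr : (1 : ℝ) ≤ N := by exact_mod_cast (by omega : 1 ≤ N)
  have hlogN := h3 N (by omega)
  have hsq : √(N : ℝ) ≤ N := by
    rw [Real.sqrt_le_left hN0.le]
    nlinarith
  have mom := h1 N (by omega) x s hs hE f hf1 hf2
  obtain ⟨H, hH⟩ : ∃ H, H = 2 * ((B + 1) * N) := ⟨_, rfl⟩
  rw [← hH] at hf2 hS mom
  obtain ⟨L, hLd⟩ : ∃ L, L = Real.log (N : ℝ) := ⟨_, rfl⟩
  rw [← hLd] at hL hlogN hf2 hG hS mom ⊢
  have hB0 : (0 : ℝ) ≤ B := Nat.cast_nonneg _
  have hL8 : 8 ≤ L := by linarith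
  have hL1 : 1 ≤ L := by linarith
  have hL0 : 0 < L := by linarith
  obtain ⟨J, hJ⟩ : ∃ J : ℕ, J = ⌈L ^ W⌉₊ := ⟨_, rfl⟩
  have hJ1 : L ^ W ≤ J := by rw [hJ]; exact Nat.le_ceil _
  have hJ2 : (J : ℝ) ≤ L ^ W + 1 := by rw [hJ]; exact (Nat.ceil_lt_add_one (by positivity)).le
  have hLW : 0 < L ^ W := by positivity
  have hJ0 : (0 : ℝ) < J := by linarith
  have hJpos : 0 < J := by exact_mod_cast hJ0
  obtain ⟨Y, hY⟩ : ∃ Y : ℕ, Y = B * N / J + 1 := ⟨_, rfl⟩
  have hY1 : 1 ≤ Y := by rw [hY]; exact Nat.le_add_left 1 _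
  have hYr : (Y : ℝ) ≤ B * N / L ^ W + 1 := by
    rw [hY]
    push_cast
    have e1 : ((B * N / J : ℕ) : ℝ) ≤ ((B * N : ℕ) : ℝ) / J := Nat.cast_div_le
    have e2 : ((B * N : ℕ) : ℝ) / J ≤ B * N / L ^ W := by
      push_cast
      exact div_le_div_of_nonneg_left (by positivity) hLW hJ1
    linarith
  have hJY : B * N < J * Y := by
    rw [hY, Nat.mul_add, mul_one]
    have := Nat.div_add_mod (B * N) J
    have := Nat.mod_lt (B * N) hJpos
    omega
  -- size of the function
  have hfz : ∀ k : ℤ, ‖fz f H k‖ ≤ 2 * L := by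
    intro k
    unfold fz
    split_ifs with h
    · apply hf2
      rw [mem_Icc]
      omega
    · rw [norm_zero]; positivity
  -- the sets
  obtain ⟨Sg, hSg⟩ : ∃ F : ℕ → ℕ → ℂ, F = fun A m => ∑ a ∈ Icc 1 A, G a * fz f H (a + s m) := ⟨_, rfl⟩
  obtain ⟨Sj, hSj⟩ : ∃ Sj : ℕ → Finset ℕ, Sj = fun j => (Icc 1 x).filter (fun m => j * Y ≤ B * N ∧
    N / (2 * L ^ U) < ‖Sg (j * Y) m‖) := ⟨_, rfl⟩
  have hsub : S ⊆ (range (J + 1)).biUnion Sj := by
    intro m hm
    obtain ⟨A, hA, hlt⟩ := hS m hm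
    rw [mem_biUnion]
    refine ⟨A / Y, ?_, ?_⟩
    · rw [mem_range]
      have : A / Y < J := by
        rw [Nat.div_lt_iff_lt_mul hY1]
        omega
      omega
    · rw [hSj]
      simp only [mem_filter]
      have hle : A / Y * Y ≤ A := Nat.div_mul_le_self A Y
      refine ⟨hSx hm, hle.trans hA, ?_⟩
      have hsplit : Sg A m = Sg (A / Y * Y) m + ∑ a ∈ Ioc (A / Y * Y) A, G a * fz f H (a + s m) := by
        rw [hSg]
        simp only
        have e : Icc 1 A = Icc 1 (A / Y * Y) ∪ Ioc (A / Y * Y) A := by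
          ext n
          simp only [mem_union, mem_Icc, mem_Ioc]
          omega
        rw [e, sum_union]
        rw [disjoint_left]
        intro n hn1 hn2
        rw [mem_Icc] at hn1
        rw [mem_Ioc] at hn2
        omega
      have hdiff : ‖∑ a ∈ Ioc (A / Y * Y) A, G a * fz f H (a + s m)‖ ≤ N / (2 * L ^ U) := by
        have e1 : ‖∑ a ∈ Ioc (A / Y * Y) A, G a * fz f H (a + s m)‖ ≤ ∑ a ∈ Ioc (A / Y * Y) A, L ^ T * (2 * L) := by
          refine (norm_sum_le _ _).trans (sum_le_sum fun a _ => ?_)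
          rw [norm_mul]
          exact mul_le_mul (hG a) (hfz _) (norm_nonneg _) (by positivity)
        rw [sum_const, Nat.card_Ioc, nsmul_eq_mul] at e1
        have e2 : A - A / Y * Y ≤ Y := by
          have h4 := Nat.div_add_mod A Y
          have h5 := Nat.mod_lt A hY1
          have h6 : Y * (A / Y) = A / Y * Y := mul_comm _ _
          omega
        have e3 : ((A - A / Y * Y : ℕ) : ℝ) ≤ B * N / L ^ W + 1 := le_trans (by exact_mod_cast e2) hYr
        have e4 : ((A - A / Y * Y : ℕ) : ℝ) * (L ^ T * (2 * L)) ≤ (B * N / L ^ W + 1) * (L ^ T * (2 * L)) :=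
          mul_le_mul_of_nonneg_right e3 (by positivity)
        refine e1.trans (e4.trans ?_)
        have e5 : B * N / L ^ W * (L ^ T * (2 * L)) ≤ N / (4 * L ^ U) := by
          have hp1 : L ^ W = L ^ T * L ^ U * L ^ 3 := by rw [hW, pow_add, pow_add]
          have e6 : B * N / L ^ W * (L ^ T * (2 * L)) = (8 * B / L ^ 2) * (N / (4 * L ^ U)) := by
            rw [hp1]
            field_simp
            ring
          rw [e6]
          have e7 : 8 * (B : ℝ) / L ^ 2 ≤ 1 := by
            rw [div_le_one (by positivity)]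
            nlinarith
          calc (8 * (B : ℝ) / L ^ 2) * (N / (4 * L ^ U)) ≤ 1 * (N / (4 * L ^ U)) :=
                mul_le_mul_of_nonneg_right e7 (by positivity)
            _ = _ := one_mul _
        have e8 : L ^ T * (2 * L) ≤ N / (4 * L ^ U) := by
          rw [le_div_iff₀ (by positivity)]
          calc L ^ T * (2 * L) * (4 * L ^ U) = 8 * L ^ (T + U + 1) := by ring
            _ ≤ N := hlogN.trans hsq
        have e9 : (N : ℝ) / (2 * L ^ U) = N / (4 * L ^ U) + N / (4 * L ^ U) := by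
          field_simp
          ring
        rw [e9, add_mul, one_mul]
        exact add_le_add e5 e8
      have h5 : ‖Sg A m‖ ≤ ‖Sg (A / Y * Y) m‖ + N / (2 * L ^ U) := by
        rw [hsplit]
        exact (norm_add_le _ _).trans (add_le_add le_rfl hdiff)
      have h6 : (N : ℝ) / L ^ U < ‖Sg A m‖ := by rw [hSg]; exact hlt
      have h7 : (N : ℝ) / L ^ U = N / (2 * L ^ U) + N / (2 * L ^ U) := by
        field_simp
        ring
      linarith
  -- the size of one set
  have hone : ∀ j ∈ range (J + 1), ((Sj j).card : ℝ) ≤ 2 * x / L ^ (W + U + 3) := by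
    intro j _
    by_cases hj : j * Y ≤ B * N
    · have hLT : 0 < L ^ T := by positivity
      have m1 := mom (j * Y) hj (fun a => G a / ((L ^ T : ℝ) : ℂ)) (by
        intro a
        rw [norm_div, Complex.norm_real, Real.norm_of_nonneg hLT.le, div_le_one hLT]
        exact hG a)
      have m2 : ∀ m, ‖∑ a ∈ Icc 1 (j * Y), G a / ((L ^ T : ℝ) : ℂ) * fz f H (a + s m)‖ = ‖Sg (j * Y) m‖ / L ^ T := by
        intro m
        have e : ∑ a ∈ Icc 1 (j * Y), G a / ((L ^ T : ℝ) : ℂ) * fz f H (a + s m) = Sg (j * Y) m / ((L ^ T : ℝ) : ℂ) := by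
          rw [hSg]
          simp only
          rw [sum_div]
          apply sum_congr rfl
          intro a _
          ring
        rw [e, norm_div, Complex.norm_real, Real.norm_of_nonneg hLT.le]
      rw [sum_congr rfl (fun m _ => m2 m), ← sum_div, div_le_iff₀ hLT] at m1
      have m3 : ((Sj j).card : ℝ) * (N / (2 * L ^ U)) ≤ ∑ m ∈ Icc 1 x, ‖Sg (j * Y) m‖ := by
        calc ((Sj j).card : ℝ) * (N / (2 * L ^ U)) = ∑ m ∈ Sj j, N / (2 * L ^ U) := by
              rw [sum_const, nsmul_eq_mul]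
          _ ≤ ∑ m ∈ Sj j, ‖Sg (j * Y) m‖ := by
              apply sum_le_sum
              intro m hm
              rw [hSj] at hm
              simp only [mem_filter] at hm
              exact hm.2.2.le
          _ ≤ _ := by
              apply sum_le_sum_of_subset_of_nonneg
              · rw [hSj]
                exact filter_subset _ _
              · intro _ _ _
                exact norm_nonneg _
      have m4 := m3.trans m1
      have hNU : 0 < (N : ℝ) / (2 * L ^ U) := by positivity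
      rw [← le_div_iff₀ hNU] at m4
      refine m4.trans (le_of_eq ?_)
      have hp : L ^ (W + T + 2 * U + 3) = L ^ (W + U + 3) * L ^ T * L ^ U := by
        rw [← pow_add, ← pow_add]
        congr 1
        ring
      rw [hp]
      field_simp
    · have : Sj j = ∅ := by
        rw [hSj]
        simp only
        rw [filter_eq_empty_iff]
        intro m _ h
        exact hj h.1
      rw [this]
      simp only [card_empty, Nat.cast_zero]
      positivity
  calc (S.card : ℝ) ≤ (((range (J + 1)).biUnion Sj).card : ℝ) := by exact_mod_cast card_le_card hsub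
    _ ≤ ∑ j ∈ range (J + 1), ((Sj j).card : ℝ) := by exact_mod_cast card_biUnion_le
    _ ≤ ∑ j ∈ range (J + 1), 2 * x / L ^ (W + U + 3) := sum_le_sum hone
    _ = (J + 1) * (2 * x / L ^ (W + U + 3)) := by
        rw [sum_const, card_range, nsmul_eq_mul]
        push_cast
        rfl
    _ ≤ (L ^ W * L ^ 2 / 2) * (2 * x / L ^ (W + U + 3)) := by
        apply mul_le_mul_of_nonneg_right _ (by positivity)
        have hW1 : 1 ≤ L ^ W := one_le_pow₀ hL1
        have e : 64 ≤ L ^ 2 := by nlinarith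
        nlinarith
    _ = x / L ^ (U + 1) := by
        have hp : L ^ (W + U + 3) = L ^ W * L ^ 2 * L ^ (U + 1) := by
          rw [← pow_add, ← pow_add]
          congr 1
          ring
        rw [hp]
        field_simp
    _ ≤ x / L ^ U := by
        apply div_le_div_of_nonneg_left (Nat.cast_nonneg _) (by positivity)
        exact pow_le_pow_right₀ hL1 (by omega)

end Pool.Agent.TH646.LV
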